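import Mathlib
import Pool.Agent.Q175.Om

/-!
# A linearly ordered abelian group without a suitable set

The group is a subgroup of the lexicographically ordered group of all functions from the set of
the countable ordinals to the integers, with the order topology.  It is generated by the
characteristic functions of the finite sets and of a ladder for every limit.
-/

open Set Filter Topology TopologicalSpace
open Q175.O1

namespace Pool.Agent.Results.MP_41e59e_gt.NoSuitableSet

/-- `S` is a suitable set of the topological group `G` (written additively): `S` is a discrete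
subspace, `S ∪ {0}` is closed, and the subgroup generated by `S` is dense. -/
def IsSuitable {G : Type*} [AddGroup G] [TopologicalSpace G] (S : Set G) : Prop :=
  DiscreteTopology S ∧ IsClosed (S ∪ {0}) ∧ Dense (AddSubgroup.closure S : Set G)

/-! ### The group -/

/-- The characteristic function of a set. -/
noncomputable def ind (A : Set Om) : Om → ℤ := A.indicator 1

theorem ind_of_mem {A : Set Om} {a : Om} (h : a ∈ A) : ind A a = 1 := by
  simp [ind, h]

theorem ind_of_notMem {A : Set Om} {a : Om} (h : a ∉ A) : ind A a = 0 := by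
  simp [ind, h]

open Classical in
/-- A ladder at `δ`, if `δ` is a limit. -/
noncomputable def lad (δ : Om) : Set Om :=
  if h : IsLim δ then range (exists_ladder h).choose else ∅

theorem lad_lt {δ : Om} {a : Om} (ha : a ∈ lad δ) : a < δ := by
  unfold lad at ha
  split_ifs at ha with h
  · obtain ⟨n, rfl⟩ := ha
    exact (exists_ladder h).choose_spec.2.1 n
  · exact absurd ha (notMem_empty _)

theorem lad_cofinal {δ : Om} (h : IsLim δ) {β : Om} (hβ : β < δ) : ∃ a ∈ lad δ, β < a := by
  obtain ⟨n, hn⟩ := (exists_ladder h).choose_spec.2.2 β hβ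
  refine ⟨_, ?_, hn⟩
  unfold lad
  rw [dif_pos h]
  exact ⟨n, rfl⟩

theorem lad_finite {δ β : Om} (hβ : β < δ) : (lad δ ∩ Iio β).Finite := by
  unfold lad
  split_ifs with h
  · obtain ⟨h1, h2, h3⟩ := (exists_ladder h).choose_spec
    obtain ⟨n, hn⟩ := h3 β hβ
    refine ((finite_Iio n).image (exists_ladder h).choose).subset ?_
    rintro _ ⟨⟨m, rfl⟩, hm⟩
    exact ⟨m, h1.lt_iff_lt.1 (lt_trans hm hn), rfl⟩
  · simp

/-- The sets whose characteristic functions generate the group. -/
def 𝒜 : Set (Set Om) := {A | A.Finite} ∪ range lad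

/-- The group, as a subgroup of the group of all functions. -/
noncomputable def Gs : AddSubgroup (Om → ℤ) := AddSubgroup.closure (ind '' 𝒜)

theorem ind_mem {A : Set Om} (hA : A ∈ 𝒜) : ind A ∈ Gs :=
  AddSubgroup.subset_closure ⟨A, hA, rfl⟩

/-- Truncation at `β`. -/
noncomputable def trunc (β : Om) : (Om → ℤ) →+ (Om → ℤ) where
  toFun g := (Iio β).indicator g
  map_zero' := by simp
  map_add' f g := Set.indicator_add _ _ _

theorem trunc_of_lt {β γ : Om} (g : Om → ℤ) (h : γ < β) : trunc β g γ = g γ :=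
  Set.indicator_of_mem (mem_Iio.2 h) g

theorem trunc_of_le {β γ : Om} (g : Om → ℤ) (h : β ≤ γ) : trunc β g γ = 0 :=
  Set.indicator_of_notMem (fun h' => absurd (mem_Iio.1 h') (not_lt.2 h)) g

theorem trunc_ind (β : Om) (A : Set Om) : trunc β (ind A) = ind (A ∩ Iio β) := by
  funext γ
  rcases lt_or_ge γ β with h | h
  · rw [trunc_of_lt _ h]
    by_cases hA : γ ∈ A
    · rw [ind_of_mem hA, ind_of_mem (show γ ∈ A ∩ Iio β from ⟨hA, h⟩)]
    · rw [ind_of_notMem hA, ind_of_notMem fun h' => hA h'.1]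
  · rw [trunc_of_le _ h, ind_of_notMem fun h' => absurd h'.2 (not_lt.2 h)]

theorem lad_inter_of_le {β δ : Om} (h : δ ≤ β) : lad δ ∩ Iio β = lad δ :=
  inter_eq_left.2 fun _ ha => (lad_lt ha).trans_le h

theorem inter_mem {A : Set Om} (hA : A ∈ 𝒜) (β : Om) : A ∩ Iio β ∈ 𝒜 := by
  rcases hA with hA | ⟨δ, rfl⟩
  · exact Or.inl (hA.subset inter_subset_left)
  · rcases lt_or_ge β δ with h | h
    · exact Or.inl (lad_finite h)
    · rw [lad_inter_of_le h]
      exact Or.inr ⟨δ, rfl⟩

theorem trunc_mem {g : Om → ℤ} (hg : g ∈ Gs) (β : Om) : trunc β g ∈ Gs := by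
  have h : AddSubgroup.map (trunc β) Gs ≤ Gs := by
    rw [Gs, AddMonoidHom.map_closure, AddSubgroup.closure_le]
    rintro _ ⟨_, ⟨A, hA, rfl⟩, rfl⟩
    rw [trunc_ind]
    exact ind_mem (inter_mem hA β)
  exact h ⟨g, hg, rfl⟩

theorem countable_closure {A : Type*} [AddCommGroup A] {S : Set A} (hS : S.Countable) :
    (AddSubgroup.closure S : Set A).Countable := by
  have : Countable S := hS.to_subtype
  have h : (AddSubgroup.closure S : Set A) ⊆
      range (Finsupp.linearCombination ℤ ((↑) : S → A)) := by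
    intro x hx
    rw [← Submodule.span_int_eq_addSubgroupClosure] at hx
    exact (Finsupp.mem_span_iff_linearCombination ℤ S x).1 hx
  exact (countable_range _).mono h

theorem countable_trunc (β : Om) : (trunc β '' (Gs : Set (Om → ℤ))).Countable := by
  have h1 : trunc β '' (Gs : Set (Om → ℤ)) =
      (AddSubgroup.closure (trunc β '' (ind '' 𝒜)) : Set (Om → ℤ)) := by
    rw [← AddMonoidHom.map_closure]
    rfl
  rw [h1]
  apply countable_closure
  have h2 : trunc β '' (ind '' 𝒜) ⊆ ind '' ({A | A.Finite ∧ A ⊆ Iio β} ∪ lad '' Iic β) := by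
    rintro _ ⟨_, ⟨A, hA, rfl⟩, rfl⟩
    rw [trunc_ind]
    refine ⟨_, ?_, rfl⟩
    rcases hA with hA | ⟨δ, rfl⟩
    · exact Or.inl ⟨hA.subset inter_subset_left, inter_subset_right⟩
    · rcases lt_or_ge β δ with h | h
      · exact Or.inl ⟨lad_finite h, inter_subset_right⟩
      · rw [lad_inter_of_le h]
        exact Or.inr ⟨δ, h, rfl⟩
  refine (Countable.image ?_ _).mono h2
  exact (countable_ofPred_finite_subset (countable_Iio β)).union ((countable_Iic β).image _)

/-- Every element has bounded support. -/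
theorem exists_support_bound {g : Om → ℤ} (hg : g ∈ Gs) : ∃ β, ∀ γ, β ≤ γ → g γ = 0 := by
  induction hg using AddSubgroup.closure_induction with
  | mem x hx =>
      obtain ⟨A, hA, rfl⟩ := hx
      have : ∃ β, ∀ a ∈ A, a < β := by
        rcases hA with hA | ⟨δ, rfl⟩
        · exact exists_bound hA.countable
        · exact ⟨δ, fun a ha => lad_lt ha⟩
      obtain ⟨β, hβ⟩ := this
      exact ⟨β, fun γ hγ => ind_of_notMem fun h => absurd (hβ γ h) (not_lt.2 hγ)⟩
  | zero => exact ⟨Classical.arbitrary _, fun _ _ => rfl⟩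
  | add x y _ _ hx hy =>
      obtain ⟨β, hβ⟩ := hx
      obtain ⟨β', hβ'⟩ := hy
      refine ⟨max β β', fun γ hγ => ?_⟩
      rw [Pi.add_apply, hβ γ ((le_max_left _ _).trans hγ), hβ' γ ((le_max_right _ _).trans hγ),
        add_zero]
  | neg x _ hx =>
      obtain ⟨β, hβ⟩ := hx
      exact ⟨β, fun γ hγ => by rw [Pi.neg_apply, hβ γ hγ, neg_zero]⟩

/-- The support of `g` is bounded in `δ`. -/
def Bdd (g : Om → ℤ) (δ : Om) : Prop := ∃ β < δ, ∀ γ, β ≤ γ → γ < δ → g γ = 0

theorem Bdd.add {g h : Om → ℤ} {δ : Om} (hg : Bdd g δ) (hh : Bdd h δ) : Bdd (g + h) δ := by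
  obtain ⟨β, hβ, h1⟩ := hg
  obtain ⟨β', hβ', h2⟩ := hh
  refine ⟨max β β', max_lt hβ hβ', fun γ hγ hγδ => ?_⟩
  rw [Pi.add_apply, h1 γ ((le_max_left _ _).trans hγ) hγδ,
    h2 γ ((le_max_right _ _).trans hγ) hγδ, add_zero]

theorem Bdd.neg {g : Om → ℤ} {δ : Om} (hg : Bdd g δ) : Bdd (-g) δ := by
  obtain ⟨β, hβ, h1⟩ := hg
  exact ⟨β, hβ, fun γ hγ hγδ => by rw [Pi.neg_apply, h1 γ hγ hγδ, neg_zero]⟩

theorem bdd_zero {δ : Om} (hδ : IsLim δ) : Bdd 0 δ := by
  obtain ⟨⟨β, hβ⟩, _⟩ := hδ
  exact ⟨β, hβ, fun _ _ _ => rfl⟩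

theorem bdd_of_finite {A : Set Om} {δ : Om} (hδ : IsLim δ) (hA : (A ∩ Iio δ).Finite) :
    Bdd (ind A) δ := by
  rcases (A ∩ Iio δ).eq_empty_or_nonempty with h | h
  · obtain ⟨⟨β, hβ⟩, _⟩ := hδ
    refine ⟨β, hβ, fun γ _ hγ => ind_of_notMem fun h' => ?_⟩
    have : γ ∈ A ∩ Iio δ := ⟨h', hγ⟩
    rw [h] at this
    exact this
  · obtain ⟨m, hm, hmax⟩ := Set.exists_max_image _ id hA h
    obtain ⟨β, hβδ, hβ⟩ := hδ.2 m hm.2
    refine ⟨β, hβδ, fun γ hγ hγδ => ind_of_notMem fun h' => ?_⟩
    have := hmax γ ⟨h', hγδ⟩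
    exact absurd (hβ.trans_le hγ) (not_lt.2 this)

/-- The set of limits in which the support is unbounded is finite. -/
theorem finite_unbounded {g : Om → ℤ} (hg : g ∈ Gs) : {δ | IsLim δ ∧ ¬ Bdd g δ}.Finite := by
  induction hg using AddSubgroup.closure_induction with
  | mem x hx =>
      obtain ⟨A, hA, rfl⟩ := hx
      rcases hA with hA | ⟨δ, rfl⟩
      · refine finite_empty.subset ?_
        rintro δ ⟨hδ, h⟩
        exact h (bdd_of_finite hδ (hA.subset inter_subset_left))
      · refine (finite_singleton δ).subset ?_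
        rintro δ' ⟨hδ', h⟩
        rcases lt_trichotomy δ' δ with h' | h' | h'
        · exact absurd (bdd_of_finite hδ' (lad_finite h')) h
        · exact h'
        · exact absurd ⟨δ, h', fun γ hγ _ => ind_of_notMem fun ha =>
            absurd (lad_lt ha) (not_lt.2 hγ)⟩ h
  | zero =>
      refine finite_empty.subset ?_
      rintro δ ⟨hδ, h⟩
      exact h (bdd_zero hδ)
  | add x y _ _ hx hy =>
      refine (hx.union hy).subset ?_
      rintro δ ⟨hδ, h⟩
      by_contra hcon
      have h1 : Bdd x δ := by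
        by_contra h1
        exact hcon (Or.inl ⟨hδ, h1⟩)
      have h2 : Bdd y δ := by
        by_contra h2
        exact hcon (Or.inr ⟨hδ, h2⟩)
      exact h (h1.add h2)
  | neg x _ hx =>
      refine hx.subset ?_
      rintro δ ⟨hδ, h⟩
      exact ⟨hδ, fun h' => h h'.neg⟩

theorem not_bdd_lad {δ : Om} (hδ : IsLim δ) : ¬ Bdd (ind (lad δ)) δ := by
  rintro ⟨β, hβ, h⟩
  obtain ⟨a, ha, hβa⟩ := lad_cofinal hδ hβ
  have := h a hβa.le (lad_lt ha)
  rw [ind_of_mem ha] at this
  exact one_ne_zero this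

/-! ### The order and the topology -/

/-- The group as a type. -/
def G : Type := Gs

noncomputable instance : AddCommGroup G := inferInstanceAs (AddCommGroup Gs)

/-- The underlying function. -/
def val (g : G) : Om → ℤ := g.1

theorem val_injective : Function.Injective val := Subtype.val_injective

theorem val_mem (g : G) : val g ∈ Gs := g.2

theorem val_add (g h : G) : val (g + h) = val g + val h := rfl

theorem val_neg (g : G) : val (-g) = -val g := rfl

theorem val_sub (g h : G) : val (g - h) = val g - val h := rfl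

theorem val_zero : val (0 : G) = 0 := rfl

noncomputable instance : LinearOrder G :=
  LinearOrder.lift' (fun g : G => toLex (val g)) fun _ _ h => val_injective (toLex.injective h)

theorem lt_def {g h : G} : g < h ↔ ∃ i, (∀ j < i, val g j = val h j) ∧ val g i < val h i :=
  Iff.rfl

instance : IsOrderedAddMonoid G where
  add_le_add_left a b h c := by
    rcases h.eq_or_lt with h | h
    · rw [h]
    · refine le_of_lt ?_
      obtain ⟨i, hi, hlt⟩ := lt_def.1 h
      refine lt_def.2 ⟨i, fun j hj => ?_, ?_⟩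
      · rw [val_add, val_add, Pi.add_apply, Pi.add_apply, hi j hj]
      · rw [val_add, val_add, Pi.add_apply, Pi.add_apply]
        linarith

noncomputable instance : TopologicalSpace G := Preorder.topology G

instance : OrderTopology G := ⟨rfl⟩

/-- The element `ind {α}`. -/
noncomputable def e (α : Om) : G := ⟨ind {α}, ind_mem (Or.inl (finite_singleton α))⟩

theorem val_e_self (α : Om) : val (e α) α = 1 := ind_of_mem rfl

theorem val_e_of_ne {α β : Om} (h : β ≠ α) : val (e α) β = 0 := ind_of_notMem h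

theorem e_pos (α : Om) : 0 < e α := by
  refine lt_def.2 ⟨α, fun j hj => ?_, ?_⟩
  · rw [val_e_of_ne hj.ne]
    rfl
  · rw [val_e_self]
    exact one_pos

/-- `x` and `y` agree below `α`. -/
def Agree (α : Om) (x y : G) : Prop := ∀ β < α, val x β = val y β

theorem Agree.mono {α β : Om} {x y : G} (h : Agree α x y) (hβ : β ≤ α) : Agree β x y :=
  fun γ hγ => h γ (hγ.trans_le hβ)

theorem agree_of_lt {α : Om} {x y : G} (h1 : x - e α < y) (h2 : y < x + e α) :
    Agree α x y := by
  obtain ⟨i, hi, hlt⟩ := lt_def.1 h1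
  obtain ⟨j, hj, hlt'⟩ := lt_def.1 h2
  intro β hβ
  have hne : β ≠ α := hβ.ne
  have k1 : ∀ β < α, val (x - e α) β = val x β := by
    intro β hβ
    rw [val_sub, Pi.sub_apply, val_e_of_ne hβ.ne, sub_zero]
  have k2 : ∀ β < α, val (x + e α) β = val x β := by
    intro β hβ
    rw [val_add, Pi.add_apply, val_e_of_ne hβ.ne, add_zero]
  rcases lt_or_ge i α with hia | hia
  · rcases lt_or_ge j α with hja | hja
    · exfalso
      rw [k1 i hia] at hlt
      rw [k2 j hja] at hlt'
      rcases lt_trichotomy i j with hij | hij | hij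
      · have := hj i hij
        rw [k2 i hia] at this
        omega
      · subst hij
        omega
      · have := hi j hij
        rw [k1 j hja] at this
        omega
    · have := hj β (hβ.trans_le hja)
      rw [k2 β hβ] at this
      exact this.symm
  · have := hi β (hβ.trans_le hia)
    rw [k1 β hβ] at this
    exact this

theorem lt_of_agree {α : Om} {l x y : G} {i : Om} (hi : ∀ j < i, val l j = val x j)
    (hlt : val l i < val x i) (hiα : i < α) (h : Agree α x y) : l < y :=
  lt_def.2 ⟨i, fun j hj => (hi j hj).trans (h j (hj.trans hiα)), by rw [← h i hiα]; exact hlt⟩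

theorem mem_nhds {x : G} {U : Set G} : U ∈ 𝓝 x ↔ ∃ α, ∀ y, Agree α x y → y ∈ U := by
  have hlo : ∃ l : G, l < x := ⟨x - e (Classical.arbitrary _), by
    rw [sub_lt_self_iff]
    exact e_pos _⟩
  have hup : ∃ u : G, x < u := ⟨x + e (Classical.arbitrary _), lt_add_of_pos_right _ (e_pos _)⟩
  rw [mem_nhds_iff_exists_Ioo_subset' hlo hup]
  constructor
  · rintro ⟨l, u, ⟨hl, hu⟩, hsub⟩
    obtain ⟨i, hi, hlt⟩ := lt_def.1 hl
    obtain ⟨j, hj, hlt'⟩ := lt_def.1 hu
    obtain ⟨α, hα⟩ := exists_gt (max i j)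
    refine ⟨α, fun y hy => hsub ⟨?_, ?_⟩⟩
    · exact lt_of_agree hi hlt ((le_max_left _ _).trans_lt hα) hy
    · have hjα := (le_max_right i j).trans_lt hα
      refine lt_def.2 ⟨j, fun k hk => ?_, ?_⟩
      · rw [← hy k (hk.trans hjα)]
        exact hj k hk
      · rw [← hy j hjα]
        exact hlt'
  · rintro ⟨α, hα⟩
    refine ⟨x - e α, x + e α, ⟨?_, ?_⟩, fun y hy => hα y (agree_of_lt hy.1 hy.2)⟩
    · rw [sub_lt_self_iff]
      exact e_pos _
    · exact lt_add_of_pos_right _ (e_pos _)

theorem Agree.symm {α : Om} {x y : G} (h : Agree α x y) : Agree α y x :=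
  fun β hβ => (h β hβ).symm

theorem Agree.trans {α : Om} {x y z : G} (h : Agree α x y) (h' : Agree α y z) : Agree α x z :=
  fun β hβ => (h β hβ).trans (h' β hβ)

theorem isClopen_agree (α : Om) (x : G) : IsClopen {y | Agree α x y} := by
  constructor
  · rw [← isOpen_compl_iff, isOpen_iff_mem_nhds]
    intro y hy
    exact mem_nhds.2 ⟨α, fun z hz hxz => hy (hxz.trans hz.symm)⟩
  · rw [isOpen_iff_mem_nhds]
    intro y hy
    exact mem_nhds.2 ⟨α, fun z hz => hy.trans hz⟩

instance : TotallyDisconnectedSpace G := by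
  have : TotallySeparatedSpace G := by
    rw [totallySeparatedSpace_iff_exists_isClopen]
    intro x y hxy
    obtain ⟨β, hβ⟩ : ∃ β, val x β ≠ val y β := by
      by_contra hcon
      push Not at hcon
      exact hxy (val_injective (funext hcon))
    obtain ⟨α, hα⟩ := exists_gt β
    exact ⟨{z | Agree α x z}, isClopen_agree α x, fun _ _ => rfl, fun h => hβ (h β hα)⟩
  infer_instance

/-! ### The main argument -/

/-- A closed discrete set is countable. -/
theorem countable_of_closedDiscrete {A : Set G} (hA : IsClosed A) (hd : DiscreteTopology A) :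
    A.Countable := by
  classical
  -- separate the points
  have h1 : ∀ x : G, ∃ α, ∀ a ∈ A, ∀ a' ∈ A, Agree α x a → Agree α x a' → a = a' := by
    intro x
    by_cases hx : x ∈ A
    · obtain ⟨U, hU, hUA⟩ : ∃ U ∈ 𝓝 x, U ∩ A ⊆ {x} := by
        have h2 : IsOpen ({⟨x, hx⟩} : Set A) := isOpen_discrete _
        obtain ⟨U, hU, hU2⟩ := isOpen_induced_iff.1 h2
        refine ⟨U, hU.mem_nhds ?_, ?_⟩
        · have : (⟨x, hx⟩ : A) ∈ Subtype.val ⁻¹' U := by
            rw [hU2]
            exact rfl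
          exact this
        · rintro y ⟨hyU, hyA⟩
          have : (⟨y, hyA⟩ : A) ∈ Subtype.val ⁻¹' U := hyU
          rw [hU2] at this
          exact congrArg Subtype.val this
      obtain ⟨α, hα⟩ := mem_nhds.1 hU
      refine ⟨α, fun a ha a' ha' h h' => ?_⟩
      rw [show a = x from hUA ⟨hα a h, ha⟩, show a' = x from hUA ⟨hα a' h', ha'⟩]
    · obtain ⟨α, hα⟩ := mem_nhds.1 (hA.isOpen_compl.mem_nhds hx)
      exact ⟨α, fun a ha a' _ h _ => absurd ha (hα a h)⟩
  choose α hα using h1
  -- bounds for the truncations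
  have h2 : ∀ β : Om, ∃ β', ∀ x : G, val x ∈ trunc β '' (Gs : Set (Om → ℤ)) → α x < β' := by
    intro β
    have hc : {x : G | val x ∈ trunc β '' (Gs : Set (Om → ℤ))}.Countable :=
      (countable_trunc β).preimage val_injective
    obtain ⟨β', hβ'⟩ := exists_bound (hc.image α)
    exact ⟨β', fun x hx => hβ' _ ⟨x, hx, rfl⟩⟩
  choose f hf using h2
  -- for a closed limit, only countably many elements of `A` have bounded support in it
  have h3 : ∀ δ, IsLim δ → (∀ γ < δ, f γ < δ) → {g ∈ A | Bdd (val g) δ}.Countable := by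
    intro δ _ hcl
    have hT : {x : G | ∃ β < δ, val x ∈ trunc β '' (Gs : Set (Om → ℤ))}.Countable := by
      have : {x : G | ∃ β < δ, val x ∈ trunc β '' (Gs : Set (Om → ℤ))} =
          ⋃ β ∈ Iio δ, {x : G | val x ∈ trunc β '' (Gs : Set (Om → ℤ))} := by
        ext x
        simp
      rw [this]
      exact (countable_Iio δ).biUnion fun β _ => (countable_trunc β).preimage val_injective
    have hex : ∀ g ∈ {g ∈ A | Bdd (val g) δ},
        ∃ x ∈ {x : G | ∃ β < δ, val x ∈ trunc β '' (Gs : Set (Om → ℤ))}, Agree (α x) x g := by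
      rintro g ⟨_, β, hβ, hg⟩
      refine ⟨⟨trunc β (val g), trunc_mem (val_mem g) β⟩, ⟨β, hβ, ⟨val g, val_mem g, rfl⟩⟩, ?_⟩
      have hlt : α ⟨trunc β (val g), trunc_mem (val_mem g) β⟩ < δ :=
        (hf β _ ⟨val g, val_mem g, rfl⟩).trans (hcl β hβ)
      intro γ hγ
      show trunc β (val g) γ = val g γ
      rcases lt_or_ge γ β with h | h
      · exact trunc_of_lt _ h
      · rw [trunc_of_le _ h, hg γ h (hγ.trans hlt)]
    choose! x hx hag using hex
    refine MapsTo.countable_of_injOn (f := x) hx ?_ hT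
    intro g hg g' hg' hgg
    have h1 := hag g hg
    have h2 := hag g' hg'
    rw [← hgg] at h2
    exact hα (x g) g hg.1 g' hg'.1 h1 h2
  -- infinitely many closed limits
  have h4 : ∀ β, ∃ δ, β < δ ∧ IsLim δ ∧ ∀ γ < δ, f γ < δ := exists_closed f
  choose d hd1 hd2 hd3 using h4
  let δ : ℕ → Om := fun n => Nat.rec (d (Classical.arbitrary _)) (fun _ x => d x) n
  have hδmono : StrictMono δ := strictMono_nat_of_lt_succ fun n => hd1 (δ n)
  have hδ : ∀ n, IsLim (δ n) ∧ ∀ γ < δ n, f γ < δ n := by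
    intro n
    cases n with
    | zero => exact ⟨hd2 _, hd3 _⟩
    | succ n => exact ⟨hd2 _, hd3 _⟩
  have h5 : A ⊆ ⋃ n, {g ∈ A | Bdd (val g) (δ n)} := by
    intro g hg
    by_contra hcon
    have h6 : range δ ⊆ {δ | IsLim δ ∧ ¬ Bdd (val g) δ} := by
      rintro _ ⟨n, rfl⟩
      refine ⟨(hδ n).1, fun hb => hcon ?_⟩
      exact mem_iUnion.2 ⟨n, hg, hb⟩
    exact (infinite_range_of_injective hδmono.injective) ((finite_unbounded (val_mem g)).subset h6)
  exact (countable_iUnion fun n => h3 _ (hδ n).1 (hδ n).2).mono h5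

theorem no_suitable (S : Set G) : ¬ IsSuitable S := by
  classical
  rintro ⟨hdisc, hclosed, hdense⟩
  -- the part of `S` outside a basic neighbourhood of `0` is countable
  have h1 : ∀ β, ∃ β', ∀ s ∈ S, ¬ Agree β 0 s → ∀ γ, β' ≤ γ → val s γ = 0 := by
    intro β
    have hcl : IsClosed (S \ {y | Agree β 0 y}) := by
      have : S \ {y | Agree β 0 y} = (S ∪ {0}) ∩ {y | Agree β 0 y}ᶜ := by
        ext y
        constructor
        · rintro ⟨h, h'⟩
          exact ⟨Or.inl h, h'⟩
        · rintro ⟨h | h, h'⟩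
          · exact ⟨h, h'⟩
          · exact absurd (show Agree β 0 y by rw [show y = 0 from h]; exact fun _ _ => rfl) h'
      rw [this]
      exact hclosed.inter (isClopen_agree β 0).2.isClosed_compl
    have hd : DiscreteTopology (S \ {y | Agree β 0 y} : Set G) :=
      DiscreteTopology.of_subset hdisc sdiff_subset
    have hc := countable_of_closedDiscrete hcl hd
    have hb : ∀ s : G, ∃ β, ∀ γ, β ≤ γ → val s γ = 0 := fun s => exists_support_bound (val_mem s)
    choose b hb using hb
    obtain ⟨β', hβ'⟩ := exists_bound (hc.image b)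
    exact ⟨β', fun s hs hn γ hγ => hb s γ ((hβ' _ ⟨s, ⟨hs, hn⟩, rfl⟩).le.trans hγ)⟩
  choose f hf using h1
  obtain ⟨δ, _, hδ, hcl⟩ := exists_closed f (Classical.arbitrary _)
  -- all elements of the generated subgroup have bounded support in `δ`
  have h2 : ∀ g ∈ AddSubgroup.closure S, Bdd (val g) δ := by
    intro g hg
    induction hg using AddSubgroup.closure_induction with
    | mem s hs =>
        by_cases hag : Agree δ 0 s
        · obtain ⟨⟨β, hβ⟩, _⟩ := hδ
          exact ⟨β, hβ, fun γ _ hγ => (hag γ hγ).symm⟩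
        · unfold Agree at hag
          push Not at hag
          obtain ⟨β, hβ, hne⟩ := hag
          obtain ⟨β', hβ'δ, hβ'⟩ := hδ.2 β hβ
          refine ⟨f β', hcl β' hβ'δ, fun γ hγ _ => hf β' s hs (fun h => hne (h β hβ')) γ hγ⟩
    | zero => exact bdd_zero hδ
    | add x y _ _ hx hy => exact hx.add hy
    | neg x _ hx => exact hx.neg
  -- but the ladder at `δ` is in the closure
  let g : G := ⟨ind (lad δ), ind_mem (Or.inr ⟨δ, rfl⟩)⟩
  obtain ⟨y, hy, hyS⟩ := mem_closure_iff.1 (hdense g) _ (isClopen_agree δ g).2 (fun _ _ => rfl)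
  obtain ⟨β, hβ, hb⟩ := h2 y hyS
  exact not_bdd_lad hδ ⟨β, hβ, fun γ h h' => (hy γ h').trans (hb γ h h')⟩

theorem not_separable : ¬ SeparableSpace G := by
  rintro ⟨C, hC, hdense⟩
  have hb : ∀ s : G, ∃ β, ∀ γ, β ≤ γ → val s γ = 0 := fun s => exists_support_bound (val_mem s)
  choose b hb using hb
  obtain ⟨β, hβ⟩ := exists_bound (hC.image b)
  obtain ⟨β', hβ'⟩ := exists_gt β
  obtain ⟨y, hy, hyC⟩ := mem_closure_iff.1 (hdense (e β)) _ (isClopen_agree β' (e β)).2
    (fun _ _ => rfl)
  have h1 := hy β hβ'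
  rw [val_e_self, hb y β (hβ _ ⟨y, hyC, rfl⟩).le] at h1
  exact one_ne_zero h1

theorem pseudocharacter (U : ℕ → Set G) (hU : ∀ n, IsOpen (U n)) : ⋂ n, U n ≠ {0} := by
  intro h
  have h1 : ∀ n, ∃ α, ∀ y, Agree α 0 y → y ∈ U n := by
    intro n
    refine mem_nhds.1 ((hU n).mem_nhds ?_)
    have : (0 : G) ∈ ⋂ n, U n := by
      rw [h]
      rfl
    exact mem_iInter.1 this n
  choose α hα using h1
  obtain ⟨β, hβ⟩ := exists_bound_seq α
  have h2 : e β ∈ ⋂ n, U n := by
    refine mem_iInter.2 fun n => hα n _ fun γ hγ => ?_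
    rw [val_e_of_ne (hγ.trans (hβ n)).ne]
    rfl
  rw [h] at h2
  exact (e_pos β).ne' h2

/-- There is a totally disconnected linearly orderable topological group with uncountable density
and uncountable pseudocharacter that has no suitable set. -/
theorem result : ∃ (G : Type) (_ : AddCommGroup G) (_ : LinearOrder G) (_ : TopologicalSpace G),
    IsOrderedAddMonoid G ∧ OrderTopology G ∧ IsTopologicalAddGroup G ∧
    TotallyDisconnectedSpace G ∧ ¬ SeparableSpace G ∧
    (∃ x : G, ∀ U : ℕ → Set G, (∀ n, IsOpen (U n)) → ⋂ n, U n ≠ {x}) ∧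
    ¬ ∃ S : Set G, IsSuitable S :=
  ⟨G, inferInstance, inferInstance, inferInstance, inferInstance, inferInstance, inferInstance,
    inferInstance, not_separable, ⟨0, pseudocharacter⟩, fun ⟨S, hS⟩ => no_suitable S hS⟩

end Pool.Agent.Results.MP_41e59e_gt.NoSuitableSet
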